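import Mathlib

set_option autoImplicit false

namespace Pool.Agent.Results.MP_6784b8_co.Cex

open SimpleGraph Finset

/-- The suspension: a new vertex `none` joined to every vertex. -/
def susp {V : Type} (H : SimpleGraph V) : SimpleGraph (Option V) :=
  fromRel fun x y => x = none ∨ ∃ a b, x = some a ∧ y = some b ∧ H.Adj a b

/-- The bound `f(n, k)`. -/
def f (n k : ℕ) : ℕ := (range (n + 1)).sup fun a => a * (n - a) + (k - 1) * a / 2

def T : SimpleGraph (Fin 6) := fromRel fun x y =>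
  (x, y) ∈ ({(0, 2), (0, 3), (0, 4), (4, 1), (1, 5)} : Finset (Fin 6 × Fin 6))

instance : DecidableRel T.Adj := fun _ _ => inferInstanceAs (Decidable (_ ∧ _))

theorem tree : T.IsTree := by
  refine isTree_iff_connected_and_card.2 ⟨?_, ?_⟩
  · have h : ∀ a b, T.Adj a b → T.Reachable a b := fun _ _ => Adj.reachable
    have h4 := h 4 0 (by decide)
    have h1 := (h 1 4 (by decide)).trans h4
    have h2 : ∀ a, T.Reachable a 0 := fun a => by
      fin_cases a
      exacts [.rfl, h1, h 2 0 (by decide), h 3 0 (by decide), h4, (h 5 1 (by decide)).trans h1]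
    exact ⟨fun a b => (h2 a).trans (h2 b).symm⟩
  · have := T.sum_degrees_eq_twice_card_edges
    have e : ∑ v, T.degree v = 10 := by decide +kernel
    rw [Nat.card_eq_fintype_card, ← edgeFinset_card, Nat.card_eq_fintype_card, Fintype.card_fin]
    omega

def G (t : ℕ) : SimpleGraph (Bool × Fin t × Bool) where
  Adj x y := x.1 ≠ y.1 ∨ x.2.1 = y.2.1 ∧ x.2.2 ≠ y.2.2
  symm := ⟨fun _ _ h => h.imp Ne.symm fun h => ⟨h.1.symm, h.2.symm⟩⟩
  loopless := ⟨fun _ h => h.elim (· rfl) (·.2 rfl)⟩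

instance (t : ℕ) : DecidableRel (G t).Adj := fun _ _ => inferInstanceAs (Decidable (_ ∨ _))

theorem uniq {t : ℕ} {x y z : Bool × Fin t × Bool} (h1 : (G t).Adj x y) (h2 : (G t).Adj x z)
    (e1 : x.1 = y.1) (e2 : x.1 = z.1) : y = z := by
  obtain ⟨a, b⟩ := h1.resolve_left (· e1)
  obtain ⟨c, d⟩ := h2.resolve_left (· e2)
  refine Prod.ext (e1.symm.trans e2) (Prod.ext (a.symm.trans c) ?_)
  revert b d
  cases x.2.2 <;> cases y.2.2 <;> cases z.2.2 <;> simp

theorem free (t : ℕ) : (susp T).Free (G t) := by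
  rintro ⟨φ⟩
  have a0 : ∀ i, (G t).Adj (φ none) (φ (some i)) := fun i =>
    φ.toHom.map_adj ⟨by simp, Or.inl (Or.inl rfl)⟩
  have a1 : ∀ i j, T.Adj i j → (G t).Adj (φ (some i)) (φ (some j)) := fun i j h =>
    φ.toHom.map_adj ⟨by simpa using h.ne, Or.inl (Or.inr ⟨i, j, rfl, rfl, h⟩)⟩
  have u0 : ∀ i j, i ≠ j → (φ none).1 = (φ (some i)).1 → (φ none).1 ≠ (φ (some j)).1 :=
    fun i j h x y => h (Option.some.inj (φ.injective (uniq (a0 i) (a0 j) x y)))
  have u1 : ∀ k i j, i ≠ j → T.Adj k i → T.Adj k j → (φ (some k)).1 = (φ (some i)).1 →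
      (φ (some k)).1 ≠ (φ (some j)).1 := fun k i j h p q x y =>
    h (Option.some.inj (φ.injective (uniq (a1 k i p) (a1 k j q) x y)))
  have key : ∀ v x0 x1 x2 x3 x4 x5 : Bool, (v = x0 → v ≠ x4) → (v = x0 → v ≠ x1) →
      (v = x0 → v ≠ x5) → (v = x2 → v ≠ x3) → (v = x2 → v ≠ x4) → (v = x3 → v ≠ x4) →
      (x1 = x4 → x1 ≠ x5) → (x0 = x2 → x0 ≠ x3) → (x0 = x2 → x0 ≠ x4) → (x0 = x3 → x0 ≠ x4) →
      False := by decide +kernel
  exact key _ _ _ _ _ _ _ (u0 0 4 (by decide)) (u0 0 1 (by decide)) (u0 0 5 (by decide))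
    (u0 2 3 (by decide)) (u0 2 4 (by decide)) (u0 3 4 (by decide))
    (u1 1 4 5 (by decide) (by decide) (by decide)) (u1 0 2 3 (by decide) (by decide) (by decide))
    (u1 0 2 4 (by decide) (by decide) (by decide)) (u1 0 3 4 (by decide) (by decide) (by decide))

theorem deg (t : ℕ) (v : Bool × Fin t × Bool) : 2 * t + 1 ≤ (G t).degree v := by
  have : #(insert (v.1, v.2.1, !v.2.2) (univ.image fun p : Fin t × Bool => (!v.1, p))) =
      2 * t + 1 := by
    rw [card_insert_of_notMem (by simp), card_image_of_injective _ (Prod.mk_right_injective _)]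
    simp [mul_comm]
  rw [← this]
  refine card_le_card fun x hx => (mem_neighborFinset _ _ _).2 ?_
  rcases mem_insert.1 hx with rfl | hx
  · exact Or.inr ⟨rfl, by simp⟩
  · obtain ⟨p, -, rfl⟩ := mem_image.1 hx
    exact Or.inl (by simp)

theorem result : ¬ ∀ (m : ℕ) (T : SimpleGraph (Fin m)) (c : T.Coloring Bool) (k : ℕ), 2 ≤ m →
    T.IsTree → k = min #{v | c v = true} #{v | c v = false} →
      ∃ n₀ : ℕ, ∀ n ≥ n₀, extremalNumber n (susp T) ≤ f n k := by
  intro h
  obtain ⟨n, hn⟩ := h 6 T (Coloring.mk (fun x => decide (x.1 < 2)) (by decide +kernel)) 2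
    (by norm_num) tree (by decide +kernel)
  have h1 := card_edgeFinset_le_extremalNumber (free (n + 1))
  have hc : Fintype.card (Bool × Fin (n + 1) × Bool) = 4 * (n + 1) := by simp; ring
  have h2 := (G (n + 1)).sum_degrees_eq_twice_card_edges
  have h3 := card_nsmul_le_sum univ _ _ fun v _ => deg (n + 1) v
  rw [card_univ, hc, h2, smul_eq_mul] at h3
  rw [hc] at h1
  have h4 := hn (4 * (n + 1)) (by omega)
  have h5 : f (4 * (n + 1)) 2 < 2 * (n + 1) * (2 * (n + 1) + 1) := by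
    refine (Finset.sup_lt_iff (by simp)).2 fun a ha => ?_
    obtain ⟨b, hb⟩ := Nat.exists_eq_add_of_le (Nat.lt_succ_iff.1 (mem_range.1 ha))
    have : (2 - 1) * a / 2 * 2 ≤ a := by omega
    rw [hb, Nat.add_sub_cancel_left]
    generalize (2 - 1) * a / 2 = c at *
    zify at *
    nlinarith [sq_nonneg (2 * (a : ℤ) - 2 * b - 1)]
  nlinarith

end Pool.Agent.Results.MP_6784b8_co.Cex
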